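import Pool.Agent.X225.Hm.Hom
import Pool.Agent.X225.Hm.Form

/-!
# Homology of Vietoris-Rips complexes of subsets of `ℤ ^ n` vanishes in degrees at least `2 ^ r`

Finite subsets of `ℤ ^ n` with the `ℓ¹` metric embed isometrically in Hamming cubes.  A bilinear
form in characteristic two on a space of dimension `2 ^ (r + 1)` whose isotropic pairs of vectors
are the pairs of strings at distance at most `r` yields a collapse of the complex of every finite
subset to dimension at most `2 ^ r - 1`.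
-/

namespace Pool.Agent.Results.MP_cf6741_gt.HighDegreesVanish

open Finset X225.HmG

/-- The points of `ℤ ^ n`; the lexicographic order is used to orient simplices. -/
def Pt (n : ℕ) : Type := Lex (Fin n → ℤ)

noncomputable instance (n : ℕ) : LinearOrder (Pt n) :=
  inferInstanceAs (LinearOrder (Lex (Fin n → ℤ)))

/-- The coordinates of a point. -/
def coord {n : ℕ} (x : Pt n) : Fin n → ℤ := ofLex (α := Fin n → ℤ) x

/-- The `ℓ¹` distance. -/
def l1 {n : ℕ} (x y : Pt n) : ℕ := ∑ j, (coord x j - coord y j).natAbs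

/-- The simplices of `VR(X; r)`: nonempty finite subsets of `X` with pairwise distances at most
`r`. -/
def IsSimplex {n : ℕ} (X : Set (Pt n)) (r : ℕ) (σ : Finset (Pt n)) : Prop :=
  σ.Nonempty ∧ (σ : Set (Pt n)) ⊆ X ∧ ∀ x ∈ σ, ∀ y ∈ σ, l1 x y ≤ r

/-- Integral chains of degree `i`. -/
def chains {n : ℕ} (X : Set (Pt n)) (r i : ℕ) : Submodule ℤ (Finset (Pt n) →₀ ℤ) :=
  Finsupp.supported ℤ ℤ {σ | IsSimplex X r σ ∧ σ.card = i + 1}

/-- Cycles of degree `i`. -/
noncomputable def cycles {n : ℕ} (X : Set (Pt n)) (r i : ℕ) :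
    Submodule ℤ (Finset (Pt n) →₀ ℤ) := chains X r i ⊓ LinearMap.ker bdC

/-- Boundaries of degree `i`. -/
noncomputable def boundaries {n : ℕ} (X : Set (Pt n)) (r i : ℕ) :
    Submodule ℤ (Finset (Pt n) →₀ ℤ) := (chains X r (i + 1)).map bdC

/-- The homology group `H_i(VR(X; r); ℤ)` (for `i ≥ 1`). -/
abbrev H {n : ℕ} (X : Set (Pt n)) (r i : ℕ) : Type _ :=
  cycles X r i ⧸ (boundaries X r i).submoduleOf (cycles X r i)

lemma l1_comm {n : ℕ} (x y : Pt n) : l1 x y = l1 y x := by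
  unfold l1
  refine sum_congr rfl fun j _ => ?_
  omega

lemma l1_self {n : ℕ} (x : Pt n) : l1 x x = 0 := by
  unfold l1
  refine sum_eq_zero fun j _ => ?_
  omega

/-- unary coding of the coordinates -/
def str {n : ℕ} (N : ℕ) (x : Pt n) : Fin (n * (2 * N)) → Bool := fun i =>
  decide (((finProdFinEquiv.symm i).2 : ℕ) < (coord x (finProdFinEquiv.symm i).1 + N).toNat)

lemma count (M a b : ℕ) (ha : a ≤ M) (hb : b ≤ M) :
    (∑ k : Fin M, if decide ((k : ℕ) < a) ≠ decide ((k : ℕ) < b) then 1 else 0) =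
      (a - b) + (b - a) := by
  rw [← card_filter]
  have h1 : ((univ : Finset (Fin M)).filter fun k : Fin M => decide ((k : ℕ) < a) ≠
      decide ((k : ℕ) < b)).map Fin.valEmbedding = Ico (min a b) (max a b) := by
    ext k
    simp only [mem_map, mem_filter, mem_univ, true_and, Fin.valEmbedding_apply, mem_Ico, ne_eq,
      decide_eq_decide]
    constructor
    · rintro ⟨j, hj, rfl⟩
      omega
    · intro h
      refine ⟨⟨k, by omega⟩, ?_, rfl⟩
      simp only
      omega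
  rw [← card_map Fin.valEmbedding, h1, Nat.card_Ico]
  omega

lemma hdist_str {n N : ℕ} (x y : Pt n) (hx : ∀ j, (coord x j).natAbs ≤ N)
    (hy : ∀ j, (coord y j).natAbs ≤ N) : X225.Hm.hdist (str N x) (str N y) = l1 x y := by
  classical
  have h1 : X225.Hm.hdist (str N x) (str N y) =
      (univ.filter fun i => str N x i ≠ str N y i).card := by
    unfold X225.Hm.hdist
    rw [← Set.ncard_coe_finset]
    congr 1
    ext i
    simp
  rw [h1, card_filter, ← Equiv.sum_comp finProdFinEquiv, Fintype.sum_prod_type]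
  unfold l1
  refine sum_congr rfl fun j _ => ?_
  unfold str
  simp only [Equiv.symm_apply_apply]
  have h2 := count (2 * N) (coord x j + N).toNat (coord y j + N).toNat
    (by have := hx j; omega) (by have := hy j; omega)
  rw [h2]
  have h3 := hx j
  have h4 := hy j
  omega

/-- the complex of a finite set of points collapses to low dimension -/
lemma finite_collapse {n : ℕ} (A : Finset (Pt n)) (r : ℕ) (K : Finset (Finset (Pt n)))
    (hK : ∀ σ, σ ∈ K ↔ σ ⊆ A ∧ σ.Nonempty ∧ ∀ x ∈ σ, ∀ y ∈ σ, l1 x y ≤ r) :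
    ∃ L, Collapses K L ∧ L ⊆ K ∧ ∀ σ ∈ L, σ.card ≤ 2 ^ r := by
  let N : ℕ := A.sup fun x => univ.sup fun j => (coord x j).natAbs
  have hN : ∀ x ∈ A, ∀ j, (coord x j).natAbs ≤ N := by
    intro x hx j
    refine le_trans ?_ (le_sup (f := fun x : Pt n => univ.sup fun j => (coord x j).natAbs) hx)
    exact le_sup (f := fun j => (coord x j).natAbs) (mem_univ j)
  let u : Pt n → (X225.Hm.TT (r + 1) → X225.Hm.FF Bool (n * (2 * N)) (r + 1)) :=
    fun x => X225.Hm.uu (r + 1) (str N x)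
  letI : Inhabited (Pt n) := ⟨toLex (fun _ => 0 : Fin n → ℤ)⟩
  refine collapse_low (F := X225.Hm.FF Bool (n * (2 * N)) (r + 1)) K A u (2 ^ r)
    Nat.one_le_two_pow (fun σ hσ => ((hK σ).1 hσ).2.1) (fun σ hσ => ((hK σ).1 hσ).1)
    ?_ (fun v => X225.Hm.uu_ne_zero _) ?_ ?_
  · intro σ hσ ρ hρ hne
    rw [hK] at hσ ⊢
    exact ⟨hρ.trans hσ.1, hne, fun x hx y hy => hσ.2.2 x (hρ hx) y (hρ hy)⟩
  · intro σ hσ v hv hspan
    rw [hK] at hσ ⊢
    obtain ⟨h1, h2, h3⟩ := hσ
    have h5 : ∀ w ∈ σ, l1 v w ≤ r := by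
      intro w hw
      rw [← hdist_str v w (hN v hv) (hN w (h1 hw))]
      refine X225.Hm.hdist_le_of_mem_span (str N '' (σ : Set (Pt n))) _ _ ?_ ?_
      · rw [← Set.image_comp]
        exact hspan
      · rintro _ ⟨x, hx, rfl⟩
        rw [hdist_str x w (hN x (h1 hx)) (hN w (h1 hw))]
        exact h3 x hx w hw
    refine ⟨insert_subset hv h1, insert_nonempty _ _, ?_⟩
    intro x hx y hy
    rw [mem_insert] at hx hy
    rcases hx with rfl | hx
    · rcases hy with rfl | hy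
      · rw [l1_self]
        exact Nat.zero_le _
      · exact h5 y hy
    · rcases hy with rfl | hy
      · rw [l1_comm]
        exact h5 x hx
      · exact h3 x hx y hy
  · intro σ hσ hind
    rw [hK] at hσ
    obtain ⟨h1, h2, h3⟩ := hσ
    have h5 := X225.Hm.card_le_of_indep (t := r)
      (fun x : (σ : Set (Pt n)) => str N (x : Pt n)) hind (by
      intro x y
      rw [hdist_str _ _ (hN _ (h1 x.2)) (hN _ (h1 y.2))]
      exact h3 _ x.2 _ y.2)
    simpa using h5

/-- **Main result.** For every subset `X` of `ℤ ^ n` with the `ℓ¹` metric and every scale `r` the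
group `H_i(VR(X; r); ℤ)` is zero for all `i ≥ 2 ^ r`. -/
theorem result (n r i : ℕ) (hi : 2 ^ r ≤ i) (X : Set (Pt n)) : Subsingleton (H X r i) := by
  rw [Submodule.Quotient.subsingleton_iff, Submodule.submoduleOf_eq_top]
  intro z hz
  obtain ⟨hz1, hz2⟩ := hz
  have hz1' : ∀ σ ∈ z.support, IsSimplex X r σ ∧ σ.card = i + 1 := by
    intro σ hσ
    exact (Finsupp.mem_supported ℤ z).1 hz1 hσ
  let A : Finset (Pt n) := z.support.biUnion id
  have hAX : ∀ x ∈ A, x ∈ X := by
    intro x hx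
    obtain ⟨σ, hσ, hxσ⟩ := mem_biUnion.1 hx
    exact (hz1' σ hσ).1.2.1 hxσ
  let K : Finset (Finset (Pt n)) := A.powerset.filter fun σ => σ.Nonempty ∧
    ∀ x ∈ σ, ∀ y ∈ σ, l1 x y ≤ r
  have hK : ∀ σ, σ ∈ K ↔ σ ⊆ A ∧ σ.Nonempty ∧ ∀ x ∈ σ, ∀ y ∈ σ, l1 x y ≤ r := by
    intro σ
    simp only [K, mem_filter, mem_powerset]
  obtain ⟨L, hL1, hL2, hL3⟩ := finite_collapse A r K hK
  have hi1 : 1 ≤ i := Nat.one_le_two_pow.trans hi
  obtain ⟨w, hw1, hw2⟩ := push hL1 (by
    intro σ hσ ρ hρ hne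
    rw [hK] at hσ ⊢
    exact ⟨hρ.trans hσ.1, hne, fun x hx y hy => hσ.2.2 x (hρ hx) y (hρ hy)⟩) hi1 z (by
    intro σ hσ
    refine ⟨(hK σ).2 ⟨?_, (hz1' σ hσ).1.1, (hz1' σ hσ).1.2.2⟩, (hz1' σ hσ).2⟩
    intro x hx
    exact mem_biUnion.2 ⟨σ, hσ, hx⟩) hz2
  have hzero : z - bdC w = 0 := by
    rw [← Finsupp.support_eq_empty]
    by_contra hne
    obtain ⟨σ, hσ⟩ := nonempty_iff_ne_empty.2 hne
    have h1 := hw2 σ hσ
    have h2 := hL3 σ h1.1
    omega
  refine ⟨w, ?_, (sub_eq_zero.1 hzero).symm⟩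
  change w ∈ chains X r (i + 1)
  unfold chains
  rw [Finsupp.mem_supported]
  intro σ hσ
  have h1 := hw1 σ hσ
  have h2 := (hK σ).1 h1.1
  exact ⟨⟨h2.2.1, fun x hx => hAX x (h2.1 hx), h2.2.2⟩, h1.2⟩

end Pool.Agent.Results.MP_cf6741_gt.HighDegreesVanish
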